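import Pool.Agent.U104.SB.G

/-!
# MP_0543b0_an, Q1: full positive answer

Every infinite dimensional Banach space `E` with separable dual has a biorthogonal system
`(x n, f n)` with `[x n] = E`, `[f n] = E*` such that `[f (n k)]` is weak*-closed for every
increasing sequence `n k`; in fact `[f j : j ∈ A]` is the annihilator of `{x j : j ∉ A}` for every
set `A` of indices.
-/

set_option autoImplicit false

open Set

namespace Pool.Agent.Results.MP_0543b0_an.StrongSystem

/-- Every infinite dimensional Banach space `E` over `ℝ` or `ℂ` with (norm-)separable dual has a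
biorthogonal system `(x n, f n)` such that
* the closed linear span of the `x n` is `E`, that of the `f n` is `E*`;
* for every strictly increasing sequence of indices `n k` the norm-closed span of the `f (n k)` is
  weak*-closed (as a subset of `WeakDual 𝕜 E`);
* moreover for every set `A` of indices, the norm-closed span of `{f j : j ∈ A}` is the annihilator of
  `{x j : j ∉ A}`, and the closed span of `{x j : j ∈ A}` is the pre-annihilator of `{f j : j ∉ A}`. -/
theorem result (𝕜 : Type*) [RCLike 𝕜] (E : Type*) [NormedAddCommGroup E] [NormedSpace 𝕜 E]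
    [CompleteSpace E] (hinf : ¬ FiniteDimensional 𝕜 E)
    (hsep : TopologicalSpace.SeparableSpace (StrongDual 𝕜 E)) :
    ∃ (x : ℕ → E) (f : ℕ → StrongDual 𝕜 E),
      (∀ i j, f i (x j) = if i = j then 1 else 0) ∧
      (Submodule.span 𝕜 (range x)).topologicalClosure = ⊤ ∧
      (Submodule.span 𝕜 (range f)).topologicalClosure = ⊤ ∧
      (∀ n : ℕ → ℕ, StrictMono n →
        IsClosed {φ : WeakDual 𝕜 E | WeakDual.toStrongDual φ ∈
          (Submodule.span 𝕜 (range fun k => f (n k))).topologicalClosure}) ∧
      (∀ A : Set ℕ, ((Submodule.span 𝕜 (f '' A)).topologicalClosure : Set (StrongDual 𝕜 E)) =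
        {g | ∀ j, j ∉ A → g (x j) = 0}) ∧
      (∀ A : Set ℕ, ((Submodule.span 𝕜 (x '' A)).topologicalClosure : Set E) =
        {v | ∀ j, j ∉ A → f j v = 0}) := by
  obtain ⟨x, f, hb, hx, hf, h1, h2⟩ := Pool.Agent.U104.SB.main (𝕜 := 𝕜) (E := E) hinf
  refine ⟨x, f, hb, ?_, ?_, ?_, fun A => h1 A, fun A => h2 A⟩
  · rwa [← Submodule.dense_iff_topologicalClosure_eq_top]
  · rwa [← Submodule.dense_iff_topologicalClosure_eq_top]
  · intro n _
    have h3 : {φ : WeakDual 𝕜 E | WeakDual.toStrongDual φ ∈
          (Submodule.span 𝕜 (range fun k => f (n k))).topologicalClosure} =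
        ⋂ j, ⋂ (_ : j ∉ range n), {φ : WeakDual 𝕜 E | φ (x j) = 0} := by
      ext φ
      have h4 : (range fun k => f (n k)) = f '' (range n) := by
        rw [← range_comp]; rfl
      have h5 : WeakDual.toStrongDual φ ∈
          closure (Submodule.span 𝕜 (f '' (range n)) : Set (StrongDual 𝕜 E)) ↔
          WeakDual.toStrongDual φ ∈ {g : StrongDual 𝕜 E | ∀ j, j ∉ range n → g (x j) = 0} := by
        rw [h1]
      rw [h4]
      simp only [mem_iInter, mem_setOf_eq]
      exact h5
    rw [h3]
    exact isClosed_iInter fun j => isClosed_iInter fun _ =>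
      isClosed_eq (WeakDual.eval_continuous (x j)) continuous_const

end Pool.Agent.Results.MP_0543b0_an.StrongSystem
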